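import Mathlib
import Pool.Agent.Results.MP_0764b2_an.ShadowingNotGenHyp

set_option autoImplicit false

open scoped ENNReal Topology
open Filter Set

noncomputable section

namespace Pool.Agent.H299.GenHyp

open Pool.Agent.Results.MP_0764b2_an.ShadowingNotGenHyp

section Gen

variable {𝕜 : Type} [RCLike 𝕜] {Y : Type} [NormedAddCommGroup Y] [NormedSpace 𝕜 Y]

/-- a bounded invariant projection with exponential decay -/
def LinSplits (T : Y ≃L[𝕜] Y) : Prop :=
  ∃ (P : Y →L[𝕜] Y) (C : ℝ), 0 ≤ C ∧ (∀ y, P (P y) = P y) ∧ (∀ y, P (T (P y)) = T (P y)) ∧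
    (∀ y, P y = 0 → P (T.symm y) = 0) ∧
    (∀ (k : ℕ) (y : Y), ‖T^[k] (P y)‖ ≤ C * (1 / 2) ^ k * ‖y‖) ∧
    (∀ (k : ℕ) (y : Y), ‖T.symm^[k] (y - P y)‖ ≤ C * (1 / 2) ^ k * ‖y‖)

theorem LinSplits.genHyp {T : Y ≃L[𝕜] Y} (h : LinSplits T) : GenHypAux T := by
  obtain ⟨P, C, hC, hP, hTP, hTN, h1, h2⟩ := h
  obtain ⟨k, hk⟩ : ∃ k : ℕ, C * (1 / 2 : ℝ) ^ k < 1 / 2 := by
    have h3 : Tendsto (fun k : ℕ => C * (1 / 2 : ℝ) ^ k) atTop (𝓝 0) := by
      simpa using (tendsto_pow_atTop_nhds_zero_of_lt_one (r := (1 / 2 : ℝ)) (by norm_num)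
        (by norm_num)).const_mul C
    exact (h3.eventually (gt_mem_nhds (show (0 : ℝ) < 1 / 2 by norm_num))).exists
  have hk1 : C * (1 / 2 : ℝ) ^ (k + 1) < 1 / 2 := by
    have h4 : 0 ≤ C * (1 / 2 : ℝ) ^ k := by positivity
    rw [pow_succ]
    linarith
  refine ⟨LinearMap.ker (ContinuousLinearMap.id 𝕜 Y - P).toLinearMap, LinearMap.ker P.toLinearMap,
    ?_, ?_, ⟨?_, ?_⟩, ?_, ?_, ?_, ?_⟩
  · exact (ContinuousLinearMap.id 𝕜 Y - P).isClosed_ker
  · exact P.isClosed_ker
  · rw [Submodule.disjoint_def]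
    intro x hx hx2
    have e1 : x - P x = 0 := hx
    have e2 : P x = 0 := hx2
    rw [e2, sub_zero] at e1
    exact e1
  · rw [codisjoint_iff, eq_top_iff]
    intro x _
    refine Submodule.mem_sup.2 ⟨P x, ?_, x - P x, ?_, by abel⟩
    · show P x - P (P x) = 0
      rw [hP, sub_self]
    · show P (x - P x) = 0
      rw [map_sub, hP, sub_self]
  · intro x hx
    have e1 : x - P x = 0 := hx
    have e2 : x = P x := sub_eq_zero.1 e1
    show T x - P (T x) = 0
    rw [e2, hTP, sub_self]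
  · intro x hx
    exact hTN x hx
  · refine ⟨k + 1, by omega, 1 / 2, by norm_num, fun x hx => ?_⟩
    have e1 : x - P x = 0 := hx
    have e2 : P x = x := (sub_eq_zero.1 e1).symm
    have e3 := h1 (k + 1) x
    rw [e2] at e3
    refine e3.trans ?_
    gcongr
  · refine ⟨k + 1, by omega, 1 / 2, by norm_num, fun x hx => ?_⟩
    have e2 : P x = 0 := hx
    have e3 := h2 (k + 1) x
    rw [e2, sub_zero] at e3
    refine e3.trans ?_
    gcongr

variable {p : ℝ≥0∞} [hp : Fact (1 ≤ p)]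

/-- the splitting passes from `A` to the shift operator -/
theorem LinSplits.shiftOp {A : Y ≃L[𝕜] Y} (h : LinSplits A) : LinSplits (shiftOp p A) := by
  have hp0 : p ≠ 0 := by rintro rfl; exact absurd hp.out (by simp)
  obtain ⟨P, C, hC, hP, hTP, hTN, h1, h2⟩ := h
  refine ⟨op P (Equiv.refl ℤ), C, hC, fun f => ?_, fun f => ?_, fun f hf => ?_, fun k f => ?_,
    fun k f => ?_⟩
  · apply lp.ext
    funext n
    simp only [op_apply, Equiv.refl_apply, hP]
  · apply lp.ext
    funext n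
    simp only [op_apply, Equiv.refl_apply, shiftOp_apply, hTP]
  · apply lp.ext
    funext n
    have h3 : ∀ m, P (f m) = 0 := by
      intro m
      have := congrArg (fun g : lp (fun _ : ℤ => Y) p => g m) hf
      simpa [op_apply] using this
    simp only [op_apply, Equiv.refl_apply, shiftOp_symm_apply]
    rw [hTN _ (h3 _)]
    rfl
  · have h3 : ‖((C * (1 / 2) ^ k : ℝ) : 𝕜) • reidx (Equiv.addRight (k : ℤ)) f‖
        = C * (1 / 2) ^ k * ‖f‖ := by
      rw [norm_smul, RCLike.norm_ofReal, abs_of_nonneg (by positivity), norm_reidx]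
    rw [← h3]
    refine lp.norm_mono hp0 (fun n => ?_)
    rw [shiftOp_iterate, lp.coeFn_smul, Pi.smul_apply, norm_smul, RCLike.norm_ofReal,
      abs_of_nonneg (by positivity), reidx_apply, op_apply]
    exact h1 k _
  · have h3 : ‖((C * (1 / 2) ^ k : ℝ) : 𝕜) • reidx (Equiv.subRight (k : ℤ)) f‖
        = C * (1 / 2) ^ k * ‖f‖ := by
      rw [norm_smul, RCLike.norm_ofReal, abs_of_nonneg (by positivity), norm_reidx]
    rw [← h3]
    refine lp.norm_mono hp0 (fun n => ?_)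
    rw [shiftOp_symm_iterate, lp.coeFn_smul, Pi.smul_apply, norm_smul, RCLike.norm_ofReal,
      abs_of_nonneg (by positivity), reidx_apply, lp.coeFn_sub, Pi.sub_apply, op_apply]
    exact h2 k _

end Gen

end Pool.Agent.H299.GenHyp
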