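import Mathlib
import Pool.Agent.H299.GenHyp1

set_option autoImplicit false

open scoped ENNReal Topology
open Filter Set

noncomputable section

namespace Pool.Agent.H299.GenHyp

open Pool.Agent.Results.MP_0764b2_an.ShadowingNotGenHyp

section Base

variable {𝕜 : Type} [RCLike 𝕜] {X Q : Type} [NormedAddCommGroup X] [NormedSpace 𝕜 X]
  [NormedAddCommGroup Q] [NormedSpace 𝕜 Q] (q : X →L[𝕜] Q)

/-- The base space: null sequences `(a_n, b_n)` with `b_n = 2^{n + |n|} q(a_n)`. -/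
def V : Submodule 𝕜 (lp (fun _ : ℤ => X × Q) ∞) where
  carrier := {f | (∀ n : ℤ, (f n).2 = (2 : 𝕜) ^ (n + |n|) • q (f n).1) ∧
    Tendsto (fun n : ℤ => ‖f n‖) cofinite (𝓝 0)}
  zero_mem' := by
    refine ⟨fun n => by simp, ?_⟩
    simp only [lp.coeFn_zero, Pi.zero_apply, norm_zero]
    exact tendsto_const_nhds
  add_mem' := by
    intro f g hf hg
    refine ⟨fun n => ?_, ?_⟩
    · rw [lp.coeFn_add, Pi.add_apply, Prod.snd_add, Prod.fst_add, hf.1 n, hg.1 n, map_add,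
        smul_add]
    · have h := hf.2.add hg.2
      rw [add_zero] at h
      refine squeeze_zero (fun n => norm_nonneg _) (fun n => ?_) h
      rw [lp.coeFn_add, Pi.add_apply]
      exact norm_add_le _ _
  smul_mem' := by
    intro c f hf
    refine ⟨fun n => ?_, ?_⟩
    · rw [lp.coeFn_smul, Pi.smul_apply, Prod.smul_snd, Prod.smul_fst, hf.1 n, map_smul, smul_comm]
    · have h := hf.2.const_mul ‖c‖
      rw [mul_zero] at h
      refine squeeze_zero (fun n => norm_nonneg _) (fun n => ?_) h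
      rw [lp.coeFn_smul, Pi.smul_apply, norm_smul]

variable {q}

lemma V_rel (f : V q) (n : ℤ) : (f.1 n).2 = (2 : 𝕜) ^ (n + |n|) • q (f.1 n).1 := f.2.1 n

lemma V_van (f : V q) : Tendsto (fun n : ℤ => ‖f.1 n‖) cofinite (𝓝 0) := f.2.2

lemma isClosed_V : IsClosed (V q : Set (lp (fun _ : ℤ => X × Q) ∞)) := by
  have h0 : (V q : Set (lp (fun _ : ℤ => X × Q) ∞)) =
      (⋂ n : ℤ, {f | (f n).2 = (2 : 𝕜) ^ (n + |n|) • q (f n).1}) ∩
        {f | Tendsto (fun n : ℤ => ‖f n‖) cofinite (𝓝 0)} := by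
    ext f
    simp only [SetLike.mem_coe, mem_inter_iff, mem_iInter]
    exact Iff.rfl
  rw [h0]
  refine IsClosed.inter (isClosed_iInter (fun n => ?_)) ?_
  · have h1 : Continuous (fun f : lp (fun _ : ℤ => X × Q) ∞ => f n) :=
      (lp.evalCLM 𝕜 (fun _ : ℤ => X × Q) ∞ n).continuous
    have h2 : Continuous (fun f : lp (fun _ : ℤ => X × Q) ∞ =>
        (2 : 𝕜) ^ (n + |n|) • q (f n).1) :=
      (q.continuous.comp (continuous_fst.comp h1)).const_smul _
    exact isClosed_eq (continuous_snd.comp h1) h2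
  · refine isClosed_of_closure_subset fun f hf => ?_
    rw [Metric.mem_closure_iff] at hf
    show Tendsto (fun n : ℤ => ‖f n‖) cofinite (𝓝 0)
    rw [Metric.tendsto_nhds]
    intro ε hε
    obtain ⟨g, hg, hfg⟩ := hf (ε / 2) (by positivity)
    have h3 := (Metric.tendsto_nhds.1 hg) (ε / 2) (by positivity)
    filter_upwards [h3] with n hn
    rw [Real.dist_eq, sub_zero, abs_norm] at hn ⊢
    rw [dist_eq_norm] at hfg
    have h4 : ‖(f - g) n‖ ≤ ‖f - g‖ := lp.norm_apply_le_norm (by simp) _ n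
    rw [lp.coeFn_sub, Pi.sub_apply] at h4
    calc ‖f n‖ = ‖(f n - g n) + g n‖ := by rw [sub_add_cancel]
      _ ≤ ‖f n - g n‖ + ‖g n‖ := norm_add_le _ _
      _ < ε := by linarith

lemma norm_V_le {f : V q} {C : ℝ} (hC : 0 ≤ C) (h : ∀ n, ‖f.1 n‖ ≤ C) : ‖f‖ ≤ C :=
  lp.norm_le_of_forall_le hC h

lemma norm_V_apply_le (f : V q) (n : ℤ) : ‖f.1 n‖ ≤ ‖f‖ :=
  lp.norm_apply_le_norm (by simp) f.1 n

instance completeSpace_V [CompleteSpace X] [CompleteSpace Q] : CompleteSpace (V q) :=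
  isClosed_V.completeSpace_coe

/-- elements of `V` from termwise bounds -/
def mkV (f : V q) (k : ℤ) (C : ℝ) (φ : ℤ → X × Q) (h1 : ∀ n, ‖φ n‖ ≤ C * ‖f.1 (n - k)‖)
    (h2 : ∀ n, (φ n).2 = (2 : 𝕜) ^ (n + |n|) • q (φ n).1) : V q :=
  ⟨⟨φ, by
    apply memℓp_infty
    refine ⟨|C| * ‖f.1‖, ?_⟩
    rintro _ ⟨n, rfl⟩
    refine (h1 n).trans ?_
    exact mul_le_mul (le_abs_self C) (lp.norm_apply_le_norm (by simp) f.1 _) (norm_nonneg _)
      (abs_nonneg C)⟩, h2, by
    have h3 : Tendsto (fun n : ℤ => C * ‖f.1 (n - k)‖) cofinite (𝓝 0) := by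
      have h4 := ((V_van f).comp (sub_left_injective (b := k)).tendsto_cofinite).const_mul C
      rw [mul_zero] at h4
      exact h4
    exact squeeze_zero (fun n => norm_nonneg _) h1 h3⟩

lemma mkV_apply (f : V q) (k : ℤ) (C : ℝ) (φ : ℤ → X × Q) (h1 h2) (n : ℤ) :
    (mkV (q := q) f k C φ h1 h2).1 n = φ n := rfl

lemma norm_G_le' (k : ℤ) (f : V q) (n : ℤ) :
    ‖(((2 : 𝕜) ^ (|n - k| - |n|) • (f.1 (n - k)).1, (2 : 𝕜) ^ k • (f.1 (n - k)).2) : X × Q)‖
      ≤ 2 ^ |k| * ‖f.1 (n - k)‖ := by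
  have h2 : ‖(f.1 (n - k)).1‖ ≤ ‖f.1 (n - k)‖ := norm_fst_le _
  have h3 : ‖(f.1 (n - k)).2‖ ≤ ‖f.1 (n - k)‖ := norm_snd_le _
  rw [Prod.norm_mk]
  refine max_le ?_ ?_
  · rw [norm_smul, norm_two_zpow]
    refine mul_le_mul (zpow_le_abs _ _ ?_) h2 (norm_nonneg _) (by positivity)
    have := abs_sub n k
    linarith
  · rw [norm_smul, norm_two_zpow]
    exact mul_le_mul (zpow_le_abs _ _ (le_abs_self k)) h3 (norm_nonneg _) (by positivity)

/-- The `k`-th power of the base operator, as a map. -/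
def Hfun (k : ℤ) (f : V q) : V q :=
  mkV f k (2 ^ |k|)
    (fun n => ((2 : 𝕜) ^ (|n - k| - |n|) • (f.1 (n - k)).1, (2 : 𝕜) ^ k • (f.1 (n - k)).2))
    (norm_G_le' k f) (by
    intro n
    change (2 : 𝕜) ^ k • (f.1 (n - k)).2
      = (2 : 𝕜) ^ (n + |n|) • q ((2 : 𝕜) ^ (|n - k| - |n|) • (f.1 (n - k)).1)
    rw [V_rel f (n - k), map_smul, smul_smul, smul_smul, ← zpow_add₀ two_ne_zero,
      ← zpow_add₀ two_ne_zero]
    congr 2
    ring)

lemma Hfun_apply (k : ℤ) (f : V q) (n : ℤ) :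
    (Hfun k f).1 n = ((2 : 𝕜) ^ (|n - k| - |n|) • (f.1 (n - k)).1, (2 : 𝕜) ^ k • (f.1 (n - k)).2) :=
  rfl

lemma Hfun_zero (f : V q) : Hfun 0 f = f := by
  apply Subtype.ext
  apply lp.ext
  funext n
  rw [Hfun_apply]
  simp

lemma Hfun_comp (k l : ℤ) (f : V q) : Hfun k (Hfun l f) = Hfun (k + l) f := by
  apply Subtype.ext
  apply lp.ext
  funext n
  rw [Hfun_apply, Hfun_apply, Hfun_apply]
  have h : n - k - l = n - (k + l) := by ring
  refine Prod.ext ?_ ?_
  · simp only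
    rw [smul_smul, ← zpow_add₀ two_ne_zero, h]
    congr 2
    ring
  · simp only
    rw [smul_smul, ← zpow_add₀ two_ne_zero, h]

lemma norm_Hfun_le (k : ℤ) (f : V q) : ‖Hfun k f‖ ≤ 2 ^ |k| * ‖f‖ :=
  norm_V_le (by positivity) (fun n => (norm_G_le' k f n).trans
    (mul_le_mul_of_nonneg_left (norm_V_apply_le f _) (by positivity)))

/-- The `k`-th power of the base operator, as a bounded operator. -/
def H (k : ℤ) : V q →L[𝕜] V q :=
  LinearMap.mkContinuous
    { toFun := Hfun k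
      map_add' := fun f g => by
        apply Subtype.ext
        apply lp.ext
        funext n
        rw [Submodule.coe_add, lp.coeFn_add, Pi.add_apply, Hfun_apply, Hfun_apply, Hfun_apply,
          Submodule.coe_add, lp.coeFn_add, Pi.add_apply]
        refine Prod.ext ?_ ?_
        · simp
        · simp
      map_smul' := fun c f => by
        apply Subtype.ext
        apply lp.ext
        funext n
        rw [RingHom.id_apply, Submodule.coe_smul, lp.coeFn_smul, Pi.smul_apply, Hfun_apply,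
          Hfun_apply, Submodule.coe_smul, lp.coeFn_smul, Pi.smul_apply]
        refine Prod.ext ?_ ?_
        · simp only [Prod.smul_fst]
          rw [smul_comm]
        · simp only [Prod.smul_snd]
          rw [smul_comm] } (2 ^ |k|) (norm_Hfun_le k)

lemma H_apply (k : ℤ) (f : V q) : H k f = Hfun k f := rfl

variable (q) in
/-- The base operator. -/
def S₀ : V q ≃L[𝕜] V q :=
  ContinuousLinearEquiv.equivOfInverse (H 1) (H (-1))
    (fun f => by rw [H_apply, H_apply, Hfun_comp, neg_add_cancel, Hfun_zero])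
    (fun f => by rw [H_apply, H_apply, Hfun_comp, add_neg_cancel, Hfun_zero])

lemma S₀_apply (f : V q) : S₀ q f = Hfun 1 f := rfl

lemma S₀_symm_apply (f : V q) : (S₀ q).symm f = Hfun (-1) f := rfl

lemma S₀_iterate (k : ℕ) (f : V q) : (S₀ q)^[k] f = Hfun k f := by
  induction k with
  | zero => simp [Hfun_zero]
  | succ k ih =>
    rw [Function.iterate_succ_apply', ih, S₀_apply, Hfun_comp]
    congr 1
    push_cast
    ring

lemma S₀_symm_iterate (k : ℕ) (f : V q) : (S₀ q).symm^[k] f = Hfun (-k) f := by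
  induction k with
  | zero => simp [Hfun_zero]
  | succ k ih =>
    rw [Function.iterate_succ_apply', ih, S₀_symm_apply, Hfun_comp]
    congr 1
    push_cast
    ring

/-- decay of the stable part -/
lemma stable_decay (s : V q) {C : ℝ} (hC : 0 ≤ C) (h1 : ∀ n, ‖(s.1 n).1‖ ≤ C)
    (h2 : ∀ n, (s.1 n).2 = 0) (h3 : ∀ n, n < 0 → s.1 n = 0) (k : ℕ) :
    ‖(S₀ q)^[k] s‖ ≤ C * (1 / 2) ^ k := by
  rw [S₀_iterate]
  refine norm_V_le (by positivity) (fun n => ?_)
  rw [Hfun_apply, Prod.norm_mk, h2, smul_zero, norm_zero]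
  refine max_le ?_ (by positivity)
  by_cases h : 0 ≤ n - k
  · have e1 : |n - k| - |n| = -(k : ℤ) := by
      rw [abs_of_nonneg h, abs_of_nonneg (by omega)]; ring
    rw [e1, norm_smul, norm_two_zpow, zpow_neg, zpow_natCast]
    have e2 : ((2 : ℝ) ^ k)⁻¹ = (1 / 2) ^ k := by rw [one_div, inv_pow]
    rw [e2]
    have := h1 (n - k)
    calc (1 / 2 : ℝ) ^ k * ‖(s.1 (n - k)).1‖ ≤ (1 / 2) ^ k * C := by gcongr
      _ = C * (1 / 2) ^ k := by ring
  · rw [h3 (n - k) (by omega)]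
    simp only [Prod.fst_zero, smul_zero, norm_zero]
    positivity

/-- decay of the unstable part -/
lemma unstable_decay (u : V q) {C D : ℝ} (hC : 1 ≤ C) (hD : 0 ≤ D)
    (h1 : ∀ n, ‖(u.1 n).1‖ ≤ C * D) (h2 : ∀ n, ‖(u.1 n).2‖ ≤ D)
    (h3 : ∀ n, 0 ≤ n → ‖(u.1 n).1‖ ≤ C * ‖q (u.1 n).1‖) (k : ℕ) :
    ‖(S₀ q).symm^[k] u‖ ≤ C * (1 / 2) ^ k * D := by
  have hC0 : 0 ≤ C := by linarith
  rw [S₀_symm_iterate]
  refine norm_V_le (by positivity) (fun n => ?_)
  rw [Hfun_apply, sub_neg_eq_add, Prod.norm_mk, norm_smul, norm_smul, norm_two_zpow,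
    norm_two_zpow]
  have e2 : (2 : ℝ) ^ (-(k : ℤ)) = (1 / 2) ^ k := by
    rw [zpow_neg, zpow_natCast, one_div, inv_pow]
  refine max_le ?_ ?_
  · by_cases h : 0 ≤ n + k
    · have h4 : ‖(u.1 (n + k)).1‖ ≤ C * ((2 : ℝ) ^ (-(2 * (n + k))) * D) := by
        refine (h3 _ h).trans ?_
        have h5 : ‖(u.1 (n + k)).2‖ = (2 : ℝ) ^ (2 * (n + k)) * ‖q (u.1 (n + k)).1‖ := by
          rw [V_rel u (n + k), norm_smul, norm_two_zpow, abs_of_nonneg h]
          congr 2
          ring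
        have h6 : ‖q (u.1 (n + k)).1‖ = (2 : ℝ) ^ (-(2 * (n + k))) * ‖(u.1 (n + k)).2‖ := by
          rw [h5, ← mul_assoc, ← zpow_add₀ two_ne_zero, neg_add_cancel, zpow_zero, one_mul]
        rw [h6]
        have := h2 (n + k)
        gcongr
      calc (2 : ℝ) ^ (|n + k| - |n|) * ‖(u.1 (n + k)).1‖
          ≤ (2 : ℝ) ^ (|n + k| - |n|) * (C * ((2 : ℝ) ^ (-(2 * (n + k))) * D)) := by gcongr
        _ = C * ((2 : ℝ) ^ (|n + k| - |n| + -(2 * (n + k))) * D) := by
          rw [zpow_add₀ two_ne_zero]; ring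
        _ ≤ C * ((2 : ℝ) ^ (-(k : ℤ)) * D) := by
          gcongr
          · norm_num
          · rw [abs_of_nonneg h]
            have := neg_abs_le n
            have := le_abs_self n
            omega
        _ = C * (1 / 2) ^ k * D := by rw [e2]; ring
    · have e1 : |n + k| - |n| = -(k : ℤ) := by
        rw [abs_of_nonpos (by omega), abs_of_nonpos (by omega)]; ring
      rw [e1, e2]
      calc (1 / 2 : ℝ) ^ k * ‖(u.1 (n + k)).1‖ ≤ (1 / 2) ^ k * (C * D) := by
            gcongr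
            exact h1 _
        _ = C * (1 / 2) ^ k * D := by ring
  · rw [e2]
    calc (1 / 2 : ℝ) ^ k * ‖(u.1 (n + k)).2‖ ≤ (1 / 2) ^ k * D := by
          gcongr
          exact h2 _
      _ ≤ (1 / 2) ^ k * (C * D) := by
          gcongr
          nlinarith
      _ = C * (1 / 2) ^ k * D := by ring

end Base

end Pool.Agent.H299.GenHyp
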