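import Mathlib
import Pool.Agent.H299.GenHyp2

set_option autoImplicit false

open scoped ENNReal Topology
open Filter Set

noncomputable section

namespace Pool.Agent.H299.GenHyp

open Pool.Agent.Results.MP_0764b2_an.ShadowingNotGenHyp

section Base

variable {𝕜 : Type} [RCLike 𝕜] {X Q : Type} [NormedAddCommGroup X] [NormedSpace 𝕜 X]
  [NormedAddCommGroup Q] [NormedSpace 𝕜 Q] {q : X →L[𝕜] Q}

/-- a map that lifts `q` with norm control -/
structure IsLift (q : X →L[𝕜] Q) (ℓ : X → X) (L : ℝ) : Prop where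
  one_le : 1 ≤ L
  qle : ∀ x, ‖q x‖ ≤ ‖x‖
  ql : ∀ x, q (ℓ x) = q x
  nl : ∀ x, ‖ℓ x‖ ≤ L * ‖q x‖

/-- stable part -/
def sV {ℓ : X → X} {L : ℝ} (hl : IsLift q ℓ L) (f : V q) : V q :=
  mkV f 0 (1 + L) (fun n => if 0 ≤ n then ((f.1 n).1 - ℓ (f.1 n).1, 0) else 0)
    (by
      intro n
      have hL := hl.one_le
      rw [sub_zero]
      split_ifs with h
      · rw [Prod.norm_mk, norm_zero]
        refine max_le ?_ (by positivity)
        refine (norm_sub_le _ _).trans ?_
        have h1 := hl.nl (f.1 n).1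
        have h2 := hl.qle (f.1 n).1
        have h3 : ‖(f.1 n).1‖ ≤ ‖f.1 n‖ := norm_fst_le _
        nlinarith
      · rw [norm_zero]; positivity)
    (by
      intro n
      split_ifs with h
      · show (0 : Q) = (2 : 𝕜) ^ (n + |n|) • q ((f.1 n).1 - ℓ (f.1 n).1)
        rw [map_sub, hl.ql, sub_self, smul_zero]
      · simp)

lemma sV_apply {ℓ : X → X} {L : ℝ} (hl : IsLift q ℓ L) (f : V q) (n : ℤ) :
    (sV hl f).1 n = if 0 ≤ n then ((f.1 n).1 - ℓ (f.1 n).1, 0) else 0 := rfl

/-- unstable part -/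
def uV {ℓ : X → X} {L : ℝ} (hl : IsLift q ℓ L) (f : V q) : V q :=
  mkV f 0 L (fun n => if 0 ≤ n then (ℓ (f.1 n).1, (f.1 n).2) else f.1 n)
    (by
      intro n
      have hL := hl.one_le
      rw [sub_zero]
      split_ifs with h
      · rw [Prod.norm_mk]
        have h1 := hl.nl (f.1 n).1
        have h2 := hl.qle (f.1 n).1
        have h3 : ‖(f.1 n).1‖ ≤ ‖f.1 n‖ := norm_fst_le _
        have h4 : ‖(f.1 n).2‖ ≤ ‖f.1 n‖ := norm_snd_le _
        have h5 : 0 ≤ ‖f.1 n‖ := norm_nonneg _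
        refine max_le ?_ ?_
        · refine h1.trans (mul_le_mul_of_nonneg_left (h2.trans h3) (by linarith))
        · nlinarith
      · have h5 : 0 ≤ ‖f.1 n‖ := norm_nonneg _
        nlinarith)
    (by
      intro n
      split_ifs with h
      · show (f.1 n).2 = (2 : 𝕜) ^ (n + |n|) • q (ℓ (f.1 n).1)
        rw [hl.ql]
        exact V_rel f n
      · exact V_rel f n)

lemma uV_apply {ℓ : X → X} {L : ℝ} (hl : IsLift q ℓ L) (f : V q) (n : ℤ) :
    (uV hl f).1 n = if 0 ≤ n then (ℓ (f.1 n).1, (f.1 n).2) else f.1 n := rfl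

lemma sV_add_uV {ℓ : X → X} {L : ℝ} (hl : IsLift q ℓ L) (f : V q) : sV hl f + uV hl f = f := by
  apply Subtype.ext
  apply lp.ext
  funext n
  rw [Submodule.coe_add, lp.coeFn_add, Pi.add_apply, sV_apply, uV_apply]
  split_ifs with h
  · refine Prod.ext ?_ ?_
    · simp
    · simp
  · simp

lemma norm_sV_le {ℓ : X → X} {L : ℝ} (hl : IsLift q ℓ L) (f : V q) (n : ℤ) :
    ‖(sV hl f).1 n‖ ≤ (1 + L) * ‖f‖ := by
  have hL := hl.one_le
  have h0 : 0 ≤ ‖f‖ := norm_nonneg _
  rw [sV_apply]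
  split_ifs with h
  · rw [Prod.norm_mk, norm_zero]
    refine max_le ?_ (by positivity)
    refine (norm_sub_le _ _).trans ?_
    have h1 := hl.nl (f.1 n).1
    have h2 := hl.qle (f.1 n).1
    have h3 : ‖(f.1 n).1‖ ≤ ‖f‖ := (norm_fst_le _).trans (norm_V_apply_le f n)
    nlinarith
  · rw [norm_zero]; positivity

lemma sV_decay {ℓ : X → X} {L : ℝ} (hl : IsLift q ℓ L) (f : V q) (k : ℕ) :
    ‖(S₀ q)^[k] (sV hl f)‖ ≤ (1 + L) * (1 / 2) ^ k * ‖f‖ := by
  have hL := hl.one_le
  refine (stable_decay (sV hl f) (C := (1 + L) * ‖f‖) (by positivity)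
    (fun n => (norm_fst_le _).trans (norm_sV_le hl f n)) (fun n => ?_) (fun n hn => ?_) k).trans
    (le_of_eq (by ring))
  · rw [sV_apply]; split_ifs <;> rfl
  · rw [sV_apply, if_neg (by omega)]

lemma uV_decay {ℓ : X → X} {L : ℝ} (hl : IsLift q ℓ L) (f : V q) (k : ℕ) :
    ‖(S₀ q).symm^[k] (uV hl f)‖ ≤ (1 + L) * (1 / 2) ^ k * ‖f‖ := by
  have hL := hl.one_le
  have h0 : 0 ≤ ‖f‖ := norm_nonneg _
  have h1 : ∀ n, ‖(f.1 n).1‖ ≤ ‖f‖ := fun n => (norm_fst_le _).trans (norm_V_apply_le f n)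
  have h2 : ∀ n, ‖(f.1 n).2‖ ≤ ‖f‖ := fun n => (norm_snd_le _).trans (norm_V_apply_le f n)
  refine (unstable_decay (uV hl f) (C := L) (D := ‖f‖) hL h0 (fun n => ?_) (fun n => ?_)
    (fun n hn => ?_) k).trans ?_
  · rw [uV_apply]
    split_ifs with h
    · exact (hl.nl _).trans (mul_le_mul_of_nonneg_left ((hl.qle _).trans (h1 n)) (by linarith))
    · have := h1 n
      nlinarith
  · rw [uV_apply]
    split_ifs with h
    · exact h2 n
    · exact h2 n
  · rw [uV_apply, if_pos hn]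
    show ‖ℓ (f.1 n).1‖ ≤ L * ‖q (ℓ (f.1 n).1)‖
    rw [hl.ql]
    exact hl.nl _
  · gcongr
    linarith

/-- The base operator splits. -/
theorem splits_S₀ {ℓ : X → X} {L : ℝ} (hl : IsLift q ℓ L) : Splits (S₀ q) :=
  ⟨1 + L, by have := hl.one_le; positivity, fun f =>
    ⟨sV hl f, uV hl f, sV_add_uV hl f, sV_decay hl f, uV_decay hl f⟩⟩

/-- If the kernel of `q` is complemented, then the base operator splits linearly. -/
theorem linSplits_S₀ {R : X →L[𝕜] X} {L : ℝ} (hl : IsLift q (fun x => x - R x) L)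
    (hR : ∀ x, R (R x) = R x) : LinSplits (S₀ q) := by
  have hL := hl.one_le
  have hap : ∀ (f : V q) (n : ℤ), (sV hl f).1 n = if 0 ≤ n then (R (f.1 n).1, 0) else 0 := by
    intro f n
    rw [sV_apply]
    split_ifs with h
    · simp
    · rfl
  set P : V q →L[𝕜] V q := LinearMap.mkContinuous
    { toFun := sV hl
      map_add' := fun f g => by
        apply Subtype.ext
        apply lp.ext
        funext n
        rw [Submodule.coe_add, lp.coeFn_add, Pi.add_apply, hap, hap, hap, Submodule.coe_add,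
          lp.coeFn_add, Pi.add_apply]
        split_ifs with h
        · refine Prod.ext ?_ ?_
          · simp
          · simp
        · simp
      map_smul' := fun c f => by
        apply Subtype.ext
        apply lp.ext
        funext n
        rw [RingHom.id_apply, Submodule.coe_smul, lp.coeFn_smul, Pi.smul_apply, hap, hap,
          Submodule.coe_smul, lp.coeFn_smul, Pi.smul_apply]
        split_ifs with h
        · refine Prod.ext ?_ ?_
          · simp
          · simp
        · simp } (1 + L)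
    (fun f => norm_V_le (by positivity) (norm_sV_le hl f)) with hPdef
  have hP : ∀ f, P f = sV hl f := fun f => rfl
  refine ⟨P, 1 + L, by positivity, fun f => ?_, fun f => ?_, fun f hf => ?_, fun k f => ?_,
    fun k f => ?_⟩
  · apply Subtype.ext
    apply lp.ext
    funext n
    rw [hP, hP, hap, hap]
    split_ifs with h
    · simp [hR]
    · rfl
  · apply Subtype.ext
    apply lp.ext
    funext n
    rw [hP, hP, hap, S₀_apply, Hfun_apply, hap]
    by_cases h : 0 ≤ n
    · rw [if_pos h]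
      by_cases h' : 0 ≤ n - 1
      · rw [if_pos h']
        refine Prod.ext ?_ ?_
        · simp [hR]
        · simp
      · rw [if_neg h']
        simp
    · rw [if_neg h, if_neg (show ¬ 0 ≤ n - 1 by omega)]
      simp only [Prod.fst_zero, Prod.snd_zero, smul_zero]
      rfl
  · have h1 : ∀ n, 0 ≤ n → R (f.1 n).1 = 0 := by
      intro n hn
      have h2 := hap f n
      rw [← hP, hf, if_pos hn] at h2
      exact (congrArg Prod.fst h2).symm
    apply Subtype.ext
    apply lp.ext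
    funext n
    rw [hP, hap, S₀_symm_apply, Hfun_apply, sub_neg_eq_add]
    split_ifs with h
    · refine Prod.ext ?_ ?_
      · show R ((2 : 𝕜) ^ (|n + 1| - |n|) • (f.1 (n + 1)).1) = 0
        rw [map_smul, h1 (n + 1) (by omega), smul_zero]
      · rfl
    · rfl
  · exact sV_decay hl f k
  · have h1 : f - P f = uV hl f := by
      rw [hP, sub_eq_iff_eq_add']
      exact (sV_add_uV hl f).symm
    rw [h1]
    exact uV_decay hl f k

variable (q) in
/-- The embedding of `X` in the base space at position `n`. -/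
def F (n : ℤ) : X →L[𝕜] V q :=
  ((lp.singleContinuousLinearMap 𝕜 (fun _ : ℤ => X × Q) ∞ n).comp
    ((ContinuousLinearMap.id 𝕜 X).prod ((2 : 𝕜) ^ (n + |n|) • q))).codRestrict (V q) (by
      intro x
      refine ⟨fun m => ?_, ?_⟩
      · change (lp.single (E := fun _ : ℤ => X × Q) ∞ n (x, (2 : 𝕜) ^ (n + |n|) • q x) m).2
          = (2 : 𝕜) ^ (m + |m|) •
            q (lp.single (E := fun _ : ℤ => X × Q) ∞ n (x, (2 : 𝕜) ^ (n + |n|) • q x) m).1
        by_cases h : m = n
        · subst h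
          rw [lp.single_apply_self]
        · rw [lp.single_apply_ne _ _ _ h]
          simp
      · refine tendsto_const_nhds.congr' ?_
        filter_upwards [(Set.finite_singleton n).eventually_cofinite_notMem] with m hm
        change (0 : ℝ) =
          ‖lp.single (E := fun _ : ℤ => X × Q) ∞ n (x, (2 : 𝕜) ^ (n + |n|) • q x) m‖
        rw [lp.single_apply_ne _ _ _ (by simpa using hm), norm_zero])

lemma F_coe (n : ℤ) (x : X) :
    (F q n x).1 = lp.single (E := fun _ : ℤ => X × Q) ∞ n (x, (2 : 𝕜) ^ (n + |n|) • q x) := rfl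

lemma F_apply_self (n : ℤ) (x : X) : (F q n x).1 n = (x, (2 : 𝕜) ^ (n + |n|) • q x) := by
  rw [F_coe, lp.single_apply_self]

lemma norm_F_of_q_eq_zero (n : ℤ) {x : X} (hx : q x = 0) : ‖F q n x‖ = ‖x‖ := by
  change ‖(F q n x).1‖ = ‖x‖
  rw [F_coe, hx, smul_zero, lp.norm_single (by simp), Prod.norm_mk, norm_zero]
  exact max_eq_left (norm_nonneg _)

lemma norm_F_zero (hq1 : ∀ x, ‖q x‖ ≤ ‖x‖) (x : X) : ‖F q 0 x‖ = ‖x‖ := by
  change ‖(F q 0 x).1‖ = ‖x‖
  rw [F_coe, lp.norm_single (by simp), Prod.norm_mk, abs_zero, add_zero, zpow_zero, one_smul]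
  exact max_eq_left (hq1 x)

/-- If the base operator had a linear splitting, the kernel of `q` would almost be complemented. -/
theorem exists_of_star_S₀ (h : Star (S₀ q)) :
    ∃ Φ : X →L[𝕜] X, (∀ x, q (Φ x) = 0) ∧ ∀ x, q x = 0 → ‖x - Φ x‖ ≤ 1 / 2 * ‖x‖ := by
  obtain ⟨P, n₀, m₀, r, C, hn, hm, hr0, hr1, hC, h1, h2⟩ := h
  have hlim : Tendsto (fun j : ℕ => C * r ^ j) atTop (𝓝 0) := by
    simpa using (tendsto_pow_atTop_nhds_zero_of_lt_one hr0 hr1).const_mul C
  obtain ⟨j, hj⟩ := (hlim.eventually (gt_mem_nhds (show (0 : ℝ) < 1 / 2 by norm_num))).exists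
  set N : ℕ := m₀ * j with hN
  set Φ : X →L[𝕜] X := (ContinuousLinearMap.fst 𝕜 X Q).comp
    ((lp.evalCLM 𝕜 (fun _ : ℤ => X × Q) ∞ N).comp
      ((V q).subtypeL.comp (P.comp (F q N)))) with hΦ
  have hΦx : ∀ x, Φ x = ((P (F q N x)).1 (N : ℤ)).1 := fun x => rfl
  refine ⟨Φ, fun x => ?_, fun x hx => ?_⟩
  · have key : ∀ i : ℕ, ‖q (Φ x)‖ ≤ C * r ^ i * ‖F q N x‖ := by
      intro i
      refine le_trans ?_ (h1 i (F q N x))
      rw [S₀_iterate]
      refine le_trans ?_ (norm_V_apply_le _ ((N : ℤ) + ((n₀ * i : ℕ) : ℤ)))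
      refine le_trans ?_ (norm_snd_le _)
      rw [Hfun_apply, add_sub_cancel_right, V_rel (P (F q N x)) (N : ℤ), ← hΦx, norm_smul,
        norm_smul, norm_two_zpow, norm_two_zpow, ← mul_assoc]
      have e1 : (1 : ℝ) ≤ (2 : ℝ) ^ (((n₀ * i : ℕ) : ℤ)) * 2 ^ ((N : ℤ) + |(N : ℤ)|) := by
        rw [← zpow_add₀ two_ne_zero]
        apply one_le_zpow₀ (by norm_num)
        positivity
      exact le_mul_of_one_le_left (norm_nonneg _) e1
    have hlim2 : Tendsto (fun i : ℕ => C * r ^ i * ‖F q N x‖) atTop (𝓝 0) := by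
      simpa using hlim.mul_const ‖F q N x‖
    have := ge_of_tendsto' hlim2 key
    exact norm_le_zero_iff.1 this
  · have key := h2 j (F q N x)
    rw [S₀_symm_iterate, norm_F_of_q_eq_zero _ hx] at key
    have k2 := norm_V_apply_le (Hfun (-((m₀ * j : ℕ) : ℤ)) (F q N x - P (F q N x))) 0
    have k3 := norm_fst_le ((Hfun (-((m₀ * j : ℕ) : ℤ)) (F q N x - P (F q N x))).1 0)
    have e1 : ((Hfun (-((m₀ * j : ℕ) : ℤ)) (F q N x - P (F q N x))).1 0).1
        = (2 : 𝕜) ^ (N : ℤ) • (x - Φ x) := by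
      rw [Hfun_apply, ← hN, sub_neg_eq_add, zero_add, abs_zero, sub_zero, Nat.abs_cast,
        Submodule.coe_sub, lp.coeFn_sub, Pi.sub_apply, Prod.fst_sub, F_apply_self, ← hΦx]
    rw [e1, norm_smul, norm_two_zpow] at k3
    have e2 : (1 : ℝ) ≤ (2 : ℝ) ^ (N : ℤ) := one_le_zpow₀ (by norm_num) (by positivity)
    calc ‖x - Φ x‖ ≤ (2 : ℝ) ^ (N : ℤ) * ‖x - Φ x‖ := le_mul_of_one_le_left (norm_nonneg _) e2
      _ ≤ C * r ^ j * ‖x‖ := k3.trans (k2.trans key)
      _ ≤ 1 / 2 * ‖x‖ := by gcongr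

/-- separability of the base space -/
theorem separable_V [TopologicalSpace.SeparableSpace X] [TopologicalSpace.SeparableSpace Q] :
    TopologicalSpace.SeparableSpace (V q) := by
  set s : Set (lp (fun _ : ℤ => X × Q) ∞) :=
    ⋃ n : ℤ, range (fun z : X × Q => lp.singleContinuousLinearMap 𝕜 (fun _ : ℤ => X × Q) ∞ n z)
    with hs
  have hsep : TopologicalSpace.IsSeparable s :=
    TopologicalSpace.IsSeparable.iUnion fun n =>
      TopologicalSpace.isSeparable_range (ContinuousLinearMap.continuous _)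
  have hsp : TopologicalSpace.IsSeparable
      (closure (Submodule.span 𝕜 s : Set (lp (fun _ : ℤ => X × Q) ∞))) :=
    (hsep.span (R := 𝕜)).closure
  have hV : TopologicalSpace.IsSeparable (V q : Set (lp (fun _ : ℤ => X × Q) ∞)) := by
    refine hsp.mono fun f hf => ?_
    rw [Metric.mem_closure_iff]
    intro ε hε
    have h1 : {n : ℤ | ¬ ‖f n‖ < ε / 2}.Finite := by
      have h2 := (Metric.tendsto_nhds.1 hf.2) (ε / 2) (by positivity)
      rw [Filter.eventually_cofinite] at h2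
      refine h2.subset fun n hn => ?_
      rw [mem_setOf_eq, Real.dist_eq, sub_zero, abs_norm]
      exact hn
    set S : Finset ℤ := h1.toFinset with hS
    refine ⟨∑ n ∈ S, lp.single ∞ n (f n), Submodule.sum_mem _ fun n _ =>
      Submodule.subset_span (mem_iUnion.2 ⟨n, f n, rfl⟩), ?_⟩
    rw [dist_eq_norm]
    refine lt_of_le_of_lt (lp.norm_le_of_forall_le (C := ε / 2) (by positivity) fun m => ?_)
      (show ε / 2 < ε by linarith)
    have h3 : (∑ n ∈ S, lp.single (E := fun _ : ℤ => X × Q) ∞ n (f n)) m =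
        if m ∈ S then f m else 0 := by
      rw [lp.coeFn_sum, Finset.sum_apply]
      by_cases hm : m ∈ S
      · rw [if_pos hm, Finset.sum_eq_single m]
        · rw [lp.single_apply_self]
        · intro n _ hnm
          rw [lp.single_apply_ne _ _ _ (Ne.symm hnm)]
        · intro h; exact absurd hm h
      · rw [if_neg hm]
        refine Finset.sum_eq_zero fun n hn => ?_
        rw [lp.single_apply_ne _ _ _ (fun h => hm (by rw [h]; exact hn))]
    rw [lp.coeFn_sub, Pi.sub_apply, h3]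
    by_cases hm : m ∈ S
    · rw [if_pos hm, sub_self, norm_zero]; positivity
    · rw [if_neg hm, sub_zero]
      have h4 : ¬ ¬ ‖f m‖ < ε / 2 := fun h => hm (h1.mem_toFinset.2 h)
      exact (not_not.1 h4).le
  exact hV.separableSpace

end Base

end Pool.Agent.H299.GenHyp
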