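import Mathlib
import Pool.Agent.H299.GenHyp3

set_option autoImplicit false

open scoped ENNReal Topology
open Filter Set

noncomputable section

namespace Pool.Agent.H299.GenHyp

open Pool.Agent.Results.MP_0764b2_an.ShadowingNotGenHyp

variable {𝕜 : Type} [RCLike 𝕜]

/-- the closed subspace `Z` is complemented in `Y`: some bounded operator of `Y` maps `Y` into `Z`
and fixes the elements of `Z` -/
def IsComplemented {Y : BanachSp 𝕜} (Z : Submodule 𝕜 Y.carrier) : Prop :=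
  ∃ R : Y.carrier →L[𝕜] Y.carrier, (∀ y, R y ∈ Z) ∧ ∀ z ∈ Z, R z = z

/-- The general construction. -/
theorem general (Y : BanachSp 𝕜) (Z : Submodule 𝕜 Y.carrier) (hZ : IsClosed (Z : Set Y.carrier)) :
    ∃ (X : BanachSp 𝕜) (A : Op X),
      (TopologicalSpace.SeparableSpace Y.carrier → TopologicalSpace.SeparableSpace X.carrier) ∧
      (∃ (J : Y.carrier →L[𝕜] X.carrier) (π : X.carrier →L[𝕜] Y.carrier),
        (∀ y, ‖J y‖ = ‖y‖) ∧ (∀ x, ‖π x‖ ≤ ‖x‖) ∧ ∀ y, π (J y) = y) ∧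
      HasShadowing A ∧ (IsGeneralizedHyperbolic A ↔ IsComplemented Z) ∧
      ∀ (p : ℝ≥0∞) (_ : Fact (1 ≤ p)), ∃ σ : Op (seqSp X p), IsShiftOperator (fun _ => A) σ ∧
        HasShadowing σ ∧ (IsGeneralizedHyperbolic σ ↔ IsComplemented Z) := by
  have := hZ
  set q : Y.carrier →L[𝕜] (Y.carrier ⧸ Z) := LinearMap.mkContinuous Z.mkQ 1 (fun x => by
    rw [one_mul]
    exact Submodule.Quotient.norm_mk_le Z x) with hq
  have hqle : ∀ x, ‖q x‖ ≤ ‖x‖ := fun x => Submodule.Quotient.norm_mk_le Z x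
  have hq0 : ∀ x, q x = 0 ↔ x ∈ Z := fun x => Submodule.Quotient.mk_eq_zero Z
  have hlift : ∀ z, ∃ x, q x = z ∧ ‖x‖ ≤ 2 * ‖z‖ := by
    intro z
    by_cases hz : z = 0
    · exact ⟨0, by simp [hz], by simp [hz]⟩
    · have h : 0 < ‖z‖ := norm_pos_iff.2 hz
      obtain ⟨x, hx, hx2⟩ := Submodule.Quotient.norm_mk_lt z h
      exact ⟨x, hx, by linarith⟩
  choose lift hl1 hl2 using hlift
  have hl : IsLift q (fun x => lift (q x)) 2 :=
    ⟨by norm_num, hqle, fun x => hl1 _, fun x => hl2 _⟩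
  have hsp : Splits (S₀ q) := splits_S₀ hl
  have hcomp : IsComplemented Z → LinSplits (S₀ q) := by
    rintro ⟨R, h1, h2⟩
    refine linSplits_S₀ (R := R) (L := 1 + (1 + ‖R‖) * 2) ⟨?_, hqle, fun x => ?_, fun x => ?_⟩
      (fun x => h2 _ (h1 x))
    · have := norm_nonneg R
      nlinarith
    · show q (x - R x) = q x
      rw [map_sub, (hq0 _).2 (h1 x), sub_zero]
    · show ‖x - R x‖ ≤ (1 + (1 + ‖R‖) * 2) * ‖q x‖
      have h3 : x - lift (q x) ∈ Z := by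
        rw [← hq0, map_sub, hl1, sub_self]
      have h4 : x - R x = lift (q x) - R (lift (q x)) := by
        have h5 := h2 _ h3
        rw [map_sub] at h5
        have h6 : R x = x - lift (q x) + R (lift (q x)) := by rw [← h5]; abel
        rw [h6]; abel
      rw [h4]
      have h7 : ‖R (lift (q x))‖ ≤ ‖R‖ * ‖lift (q x)‖ := R.le_opNorm _
      have h8 := hl2 (q x)
      have h9 : 0 ≤ ‖q x‖ := norm_nonneg _
      have h10 : 0 ≤ ‖R‖ := norm_nonneg _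
      calc ‖lift (q x) - R (lift (q x))‖ ≤ ‖lift (q x)‖ + ‖R (lift (q x))‖ := norm_sub_le _ _
        _ ≤ (1 + ‖R‖) * ‖lift (q x)‖ := by linarith
        _ ≤ (1 + ‖R‖) * (2 * ‖q x‖) := by gcongr
        _ ≤ (1 + (1 + ‖R‖) * 2) * ‖q x‖ := by nlinarith
  have hconv : Star (S₀ q) → IsComplemented Z := by
    intro hstar
    obtain ⟨Φ, h1, h2⟩ := exists_of_star_S₀ hstar
    obtain ⟨R, h3, h4⟩ := exists_projection Z hZ Φ (fun x => (hq0 _).1 (h1 x))
      (fun x hx => h2 x ((hq0 _).2 hx))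
    exact ⟨R, h4, h3⟩
  refine ⟨⟨V q⟩, S₀ q, ?_, ?_, hsp.shadowingAux, ⟨?_, ?_⟩, fun p hp => ?_⟩
  · intro hY
    have : TopologicalSpace.SeparableSpace (Y.carrier ⧸ Z) :=
      (Function.Surjective.denseRange (Submodule.mkQ_surjective Z)).separableSpace
        (q.continuous : Continuous fun x => Z.mkQ x)
    exact separable_V
  · refine ⟨F q 0, (ContinuousLinearMap.fst 𝕜 Y.carrier (Y.carrier ⧸ Z)).comp
      ((lp.evalCLM 𝕜 (fun _ : ℤ => Y.carrier × (Y.carrier ⧸ Z)) ∞ 0).comp (V q).subtypeL),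
      norm_F_zero hqle, fun x => ?_, fun y => ?_⟩
    · exact (norm_fst_le _).trans (norm_V_apply_le x 0)
    · show ((F q 0 y).1 0).1 = y
      rw [F_apply_self]
  · rintro ⟨M, N, h1, h2, h3, h4, h5⟩
    exact hconv (GenHypAux.star ⟨M, N, h1, h2, h3, h4.1, h5.1, h4.2, h5.2⟩)
  · intro h
    obtain ⟨M, N, h1, h2, h3, h4, h5, h6, h7⟩ := (hcomp h).genHyp
    exact ⟨M, N, h1, h2, h3, ⟨h4, h6⟩, ⟨h5, h7⟩⟩
  · refine ⟨shiftOp p (S₀ q), ⟨?_, fun x n => rfl⟩, (splits_shiftOp hsp).shadowingAux, ⟨?_, ?_⟩⟩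
    · refine ⟨max ‖(S₀ q : V q →L[𝕜] V q)‖ ‖((S₀ q).symm : V q →L[𝕜] V q)‖, fun n x => ⟨?_, ?_⟩⟩
      · refine ((S₀ q : V q →L[𝕜] V q).le_opNorm x).trans ?_
        gcongr
        exact le_max_left _ _
      · refine (((S₀ q).symm : V q →L[𝕜] V q).le_opNorm x).trans ?_
        gcongr
        exact le_max_right _ _
    · rintro ⟨M, N, h1, h2, h3, h4, h5⟩
      exact hconv (star_of_shiftOp (p := p) (GenHypAux.star
        ⟨M, N, h1, h2, h3, h4.1, h5.1, h4.2, h5.2⟩))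
    · intro h
      obtain ⟨M, N, h1, h2, h3, h4, h5, h6, h7⟩ := ((hcomp h).shiftOp (p := p)).genHyp
      exact ⟨M, N, h1, h2, h3, ⟨h4, h6⟩, ⟨h5, h7⟩⟩

end Pool.Agent.H299.GenHyp
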