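import Mathlib

set_option autoImplicit false

open scoped ENNReal Topology
open Filter Set

noncomputable section

namespace Pool.Agent.H299.GenHyp5

/-! ## A weak form of Khintchine's inequality -/

/-- signed sum -/
def sg (n : ℕ) (a : ℕ → ℝ) (s : Finset ℕ) : ℝ :=
  ∑ j ∈ Finset.range n, (if j ∈ s then a j else - a j)

lemma sg_succ_notMem (n : ℕ) (a : ℕ → ℝ) {s : Finset ℕ} (hs : s ⊆ Finset.range n) :
    sg (n + 1) a s = sg n a s - a n := by
  have h : n ∉ s := fun h => by simpa using hs h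
  rw [sg, Finset.sum_range_succ, if_neg h, sg]
  ring

lemma sg_succ_insert (n : ℕ) (a : ℕ → ℝ) (s : Finset ℕ) :
    sg (n + 1) a (insert n s) = sg n a s + a n := by
  rw [sg, Finset.sum_range_succ, if_pos (Finset.mem_insert_self n s), sg]
  congr 1
  refine Finset.sum_congr rfl fun j hj => ?_
  rw [Finset.mem_range] at hj
  have h : (j ∈ insert n s) ↔ j ∈ s := by
    rw [Finset.mem_insert]
    constructor
    · rintro (h | h)
      · omega
      · exact h
    · exact fun h => Or.inr h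
  simp only [h]

lemma sum_split (n : ℕ) (f : Finset ℕ → ℝ) :
    ∑ s ∈ (Finset.range (n + 1)).powerset, f s =
      ∑ s ∈ (Finset.range n).powerset, (f s + f (insert n s)) := by
  rw [Finset.range_add_one, Finset.sum_powerset_insert (by simp), Finset.sum_add_distrib]

lemma moments (n : ℕ) (a : ℕ → ℝ) :
    ∑ s ∈ (Finset.range n).powerset, (sg n a s) ^ 2 = 2 ^ n * ∑ j ∈ Finset.range n, a j ^ 2 ∧
    ∑ s ∈ (Finset.range n).powerset, (sg n a s) ^ 4 ≤
      3 * 2 ^ n * (∑ j ∈ Finset.range n, a j ^ 2) ^ 2 := by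
  induction n with
  | zero => simp [sg]
  | succ n ih =>
    obtain ⟨h2, h4⟩ := ih
    have hcard : ∑ _s ∈ (Finset.range n).powerset, (1 : ℝ) = 2 ^ n := by simp
    constructor
    · rw [sum_split, Finset.sum_range_succ]
      have : ∀ s ∈ (Finset.range n).powerset, (sg (n + 1) a s) ^ 2 +
          (sg (n + 1) a (insert n s)) ^ 2 = 2 * (sg n a s) ^ 2 + 2 * a n ^ 2 * 1 := by
        intro s hs
        rw [sg_succ_notMem n a (Finset.mem_powerset.1 hs), sg_succ_insert]
        ring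
      rw [Finset.sum_congr rfl this, Finset.sum_add_distrib, ← Finset.mul_sum, ← Finset.mul_sum,
        hcard, h2]
      ring
    · rw [sum_split, Finset.sum_range_succ]
      have : ∀ s ∈ (Finset.range n).powerset, (sg (n + 1) a s) ^ 4 +
          (sg (n + 1) a (insert n s)) ^ 4 =
          2 * (sg n a s) ^ 4 + 12 * a n ^ 2 * (sg n a s) ^ 2 + 2 * a n ^ 4 * 1 := by
        intro s hs
        rw [sg_succ_notMem n a (Finset.mem_powerset.1 hs), sg_succ_insert]
        ring
      rw [Finset.sum_congr rfl this, Finset.sum_add_distrib, Finset.sum_add_distrib,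
        ← Finset.mul_sum, ← Finset.mul_sum, ← Finset.mul_sum, hcard, h2]
      set B := ∑ j ∈ Finset.range n, a j ^ 2 with hB
      have h5 : 0 ≤ (2 : ℝ) ^ n * a n ^ 4 := by positivity
      have e1 : (2 : ℝ) ^ (n + 1) = 2 * 2 ^ n := by ring
      rw [e1]
      nlinarith

lemma abs_lower {x t : ℝ} (ht : 0 < t) : x ^ 2 / t - x ^ 4 / (4 * t ^ 3) ≤ |x| := by
  have h0 : 0 ≤ |x| := abs_nonneg x
  have h2 : x ^ 2 = |x| ^ 2 := (sq_abs x).symm
  have h4 : x ^ 4 = |x| ^ 4 := by
    rw [show (4 : ℕ) = 2 * 2 by norm_num, pow_mul, pow_mul, sq_abs]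
  rw [h2, h4]
  generalize |x| = u at *
  have key : 0 ≤ u * (u ^ 3 - 4 * t ^ 2 * u + 4 * t ^ 3) := by
    refine mul_nonneg h0 ?_
    have h5 : 0 ≤ (u - 6 / 5 * t) ^ 2 * (u + 12 / 5 * t) := by positivity
    have h6 : 0 ≤ t ^ 2 * u := by positivity
    have h7 : 0 ≤ t ^ 3 := by positivity
    nlinarith
  have h8 : u - (u ^ 2 / t - u ^ 4 / (4 * t ^ 3)) =
      u * (u ^ 3 - 4 * t ^ 2 * u + 4 * t ^ 3) / (4 * t ^ 3) := by
    field_simp
    ring
  have h9 : 0 ≤ u * (u ^ 3 - 4 * t ^ 2 * u + 4 * t ^ 3) / (4 * t ^ 3) :=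
    div_nonneg key (by positivity)
  linarith

lemma khintchine (n : ℕ) (a : ℕ → ℝ) :
    2 ^ n * ∑ j ∈ Finset.range n, |a j| ≤
      5 / 2 * √n * ∑ s ∈ (Finset.range n).powerset, |sg n a s| := by
  set B := ∑ j ∈ Finset.range n, a j ^ 2 with hB
  have hB0 : 0 ≤ B := Finset.sum_nonneg fun j _ => sq_nonneg _
  obtain ⟨h2, h4⟩ := moments n a
  rw [← hB] at h2 h4
  set M := ∑ s ∈ (Finset.range n).powerset, |sg n a s| with hM
  have hM0 : 0 ≤ M := Finset.sum_nonneg fun s _ => abs_nonneg _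
  have hsq : (∑ j ∈ Finset.range n, |a j|) ≤ √n * √B := by
    rw [← Real.sqrt_mul (by positivity)]
    refine Real.le_sqrt_of_sq_le ?_
    have := sq_sum_le_card_mul_sum_sq (s := Finset.range n) (f := fun j => |a j|)
    simpa [sq_abs] using this
  have hMB : 2 / 5 * (2 ^ n * √B) ≤ M := by
    rcases hB0.eq_or_lt with h | h
    · rw [← h, Real.sqrt_zero, mul_zero, mul_zero]
      exact hM0
    · set T := √B with hT
      have hT0 : 0 < T := Real.sqrt_pos.2 h
      have hTB : T ^ 2 = B := Real.sq_sqrt hB0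
      have h5 : ∑ s ∈ (Finset.range n).powerset,
          ((sg n a s) ^ 2 / (5 / 4 * T) - (sg n a s) ^ 4 / (4 * (5 / 4 * T) ^ 3)) ≤ M :=
        Finset.sum_le_sum fun s _ => abs_lower (by positivity)
      rw [Finset.sum_sub_distrib, ← Finset.sum_div, ← Finset.sum_div, h2] at h5
      have h6 : (∑ s ∈ (Finset.range n).powerset, (sg n a s) ^ 4) / (4 * (5 / 4 * T) ^ 3) ≤
          3 * 2 ^ n * B ^ 2 / (4 * (5 / 4 * T) ^ 3) := by
        gcongr
      rw [← hTB] at h5 h6
      have h7 : 2 ^ n * T ^ 2 / (5 / 4 * T) = 4 / 5 * (2 ^ n * T) := by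
        field_simp
      have h8 : 3 * 2 ^ n * (T ^ 2) ^ 2 / (4 * (5 / 4 * T) ^ 3) = 48 / 125 * (2 ^ n * T) := by
        field_simp
        ring
      rw [h7] at h5
      rw [h8] at h6
      have h9 : 0 ≤ 2 ^ n * T := by positivity
      linarith
  calc 2 ^ n * ∑ j ∈ Finset.range n, |a j| ≤ 2 ^ n * (√n * √B) := by gcongr
    _ = 5 / 2 * √n * (2 / 5 * (2 ^ n * √B)) := by ring
    _ ≤ 5 / 2 * √n * M := by gcongr

end Pool.Agent.H299.GenHyp5
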