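import Mathlib
import Pool.Agent.H299.GenHyp5

set_option autoImplicit false

open scoped ENNReal Topology
open Filter Set

noncomputable section

namespace Pool.Agent.H299.GenHyp6

open Pool.Agent.H299.GenHyp5

/-! ## A non-complemented closed subspace of `ℓ¹` -/

/-- index set: pairs of finite sets -/
abbrev D : Type := Finset ℕ × Finset ℕ

variable (𝕜 : Type) [RCLike 𝕜]

/-- the space `ℓ¹` -/
abbrev L1 : Type := lp (fun _ : D => 𝕜) 1

/-- real sign -/
def sgr (d : D) (j : ℕ) : ℝ := (if j ∈ d.1 then 1 else 0) - (if j ∈ d.2 then 1 else 0)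

lemma abs_sgr_le (d : D) (j : ℕ) : |sgr d j| ≤ 1 := by
  rw [sgr]
  split_ifs <;> norm_num

variable {𝕜}

lemma summable_norm (y : L1 𝕜) : Summable fun d => ‖y d‖ := by
  have h := (lp.memℓp y).summable (by simp)
  simpa using h

lemma summable_phi (y : L1 𝕜) (j : ℕ) : Summable fun d => y d * (sgr d j : 𝕜) := by
  refine Summable.of_norm_bounded (summable_norm y) fun d => ?_
  rw [norm_mul, RCLike.norm_ofReal]
  exact mul_le_of_le_one_right (norm_nonneg _) (abs_sgr_le d j)

lemma norm_eq (y : L1 𝕜) : ‖y‖ = ∑' d, ‖y d‖ := by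
  rw [lp.norm_eq_tsum_rpow (by simp)]
  simp

/-- coordinate functionals of the sign map -/
def phi (j : ℕ) : L1 𝕜 →L[𝕜] 𝕜 :=
  LinearMap.mkContinuous
    { toFun := fun y => ∑' d, y d * (sgr d j : 𝕜)
      map_add' := fun y z => by
        rw [← (summable_phi y j).tsum_add (summable_phi z j)]
        refine tsum_congr fun d => ?_
        rw [lp.coeFn_add, Pi.add_apply, add_mul]
      map_smul' := fun c y => by
        rw [RingHom.id_apply, smul_eq_mul, ← tsum_mul_left]
        refine tsum_congr fun d => ?_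
        rw [lp.coeFn_smul, Pi.smul_apply, smul_eq_mul, mul_assoc] } 1
    (fun y => by
      rw [one_mul, norm_eq]
      refine tsum_of_norm_bounded (summable_norm y).hasSum fun d => ?_
      rw [norm_mul, RCLike.norm_ofReal]
      exact mul_le_of_le_one_right (norm_nonneg _) (abs_sgr_le d j))

lemma phi_apply (j : ℕ) (y : L1 𝕜) : phi j y = ∑' d, y d * (sgr d j : 𝕜) := rfl

/-- unit vectors -/
def dl (d : D) : L1 𝕜 := lp.single 1 d (1 : 𝕜)

lemma phi_dl (j : ℕ) (d : D) : phi j (dl d : L1 𝕜) = (sgr d j : 𝕜) := by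
  rw [phi_apply, tsum_eq_single d]
  · rw [dl, lp.single_apply_self, one_mul]
  · intro d' hd'
    rw [dl, lp.single_apply_ne _ _ _ hd', zero_mul]

lemma norm_dl (d : D) : ‖(dl d : L1 𝕜)‖ = 1 := by
  rw [dl, lp.norm_single (by simp), norm_one]

variable (𝕜) in
/-- the common kernel -/
def Z : Submodule 𝕜 (L1 𝕜) := ⨅ j : ℕ, LinearMap.ker (phi (𝕜 := 𝕜) j).toLinearMap

lemma mem_Z (y : L1 𝕜) : y ∈ Z 𝕜 ↔ ∀ j, phi j y = 0 := by
  rw [Z, Submodule.mem_iInf]
  exact Iff.rfl

lemma isClosed_Z : IsClosed (Z 𝕜 : Set (L1 𝕜)) := by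
  have h : (Z 𝕜 : Set (L1 𝕜)) = ⋂ j : ℕ, {y | phi j y = 0} := by
    ext y
    rw [SetLike.mem_coe, mem_Z, mem_iInter]
    exact Iff.rfl
  rw [h]
  exact isClosed_iInter fun j => isClosed_eq (phi j).continuous continuous_const

lemma sum_le (y : L1 𝕜) (G : Finset D) : ∑ d ∈ G, ‖y d‖ ≤ ‖y‖ := by
  rw [norm_eq]
  exact (summable_norm y).sum_le_tsum G fun d _ => norm_nonneg _

theorem not_complemented (R : L1 𝕜 →L[𝕜] L1 𝕜) (h1 : ∀ y, R y ∈ Z 𝕜) (h2 : ∀ z ∈ Z 𝕜, R z = z) :
    False := by
  set S : L1 𝕜 →L[𝕜] L1 𝕜 := ContinuousLinearMap.id 𝕜 (L1 𝕜) - R with hS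
  have hSa : ∀ y, S y = y - R y := fun y => rfl
  have hSZ : ∀ z ∈ Z 𝕜, S z = 0 := fun z hz => by rw [hSa, h2 z hz, sub_self]
  set u : ℕ → L1 𝕜 := fun j => S (dl ({j}, ∅)) with hu
  have hphi : ∀ j, phi j (u j) = 1 := by
    intro j
    have h3 := (mem_Z _).1 (h1 (dl ({j}, ∅))) j
    show phi j (S (dl ({j}, ∅))) = 1
    rw [hSa, map_sub, h3, sub_zero, phi_dl]
    simp [sgr]
  -- signed sums are bounded
  have hsum : ∀ (n : ℕ) (s : Finset ℕ), s ⊆ Finset.range n →
      S (dl (s, Finset.range n \ s)) =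
        ∑ j ∈ Finset.range n, (if j ∈ s then (1 : 𝕜) else -1) • u j := by
    intro n s hs
    have h3 : dl (s, Finset.range n \ s) - ∑ j ∈ Finset.range n,
        (if j ∈ s then (1 : 𝕜) else -1) • dl ({j}, ∅) ∈ Z 𝕜 := by
      rw [mem_Z]
      intro i
      rw [map_sub, map_sum, phi_dl]
      have h4 : ∀ j ∈ Finset.range n, phi i ((if j ∈ s then (1 : 𝕜) else -1) • dl ({j}, ∅)) =
          if i = j then (if i ∈ s then (1 : 𝕜) else -1) else 0 := by
        intro j _
        rw [map_smul, phi_dl, smul_eq_mul]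
        by_cases h : i = j
        · subst h
          simp [sgr]
        · simp [sgr, h]
      rw [Finset.sum_congr rfl h4, Finset.sum_ite_eq]
      by_cases hi : i ∈ s
      · have hi' : i ∈ Finset.range n := hs hi
        rw [if_pos hi', if_pos hi]
        simp [sgr, hi]
      · by_cases hi' : i ∈ Finset.range n
        · rw [if_pos hi', if_neg hi]
          have h5 : i ∈ Finset.range n \ s := Finset.mem_sdiff.2 ⟨hi', hi⟩
          simp [sgr, hi, Finset.mem_range.1 hi']
        · rw [if_neg hi']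
          have h6 : ¬ i < n := fun h => hi' (Finset.mem_range.2 h)
          simp [sgr, hi, h6]
    have h7 := hSZ _ h3
    rw [map_sub, map_sum, sub_eq_zero] at h7
    rw [h7]
    refine Finset.sum_congr rfl fun j _ => ?_
    rw [map_smul]
  -- the main inequality
  have main : ∀ n : ℕ, √(n : ℝ) ≤ 5 * ‖S‖ := by
    intro n
    -- a finite set of indices
    obtain ⟨G, hG⟩ : ∃ G : Finset D, ∀ j ∈ Finset.range n,
        1 / 2 ≤ ∑ d ∈ G, |RCLike.re (u j d)| := by
      have h3 : ∀ j : ℕ, ∀ᶠ G : Finset D in atTop, 1 / 2 ≤ ∑ d ∈ G, |RCLike.re (u j d)| := by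
        intro j
        have h4 : HasSum (fun d => u j d * (sgr d j : 𝕜)) 1 := by
          have := (summable_phi (u j) j).hasSum
          rw [← phi_apply, hphi] at this
          exact this
        have h5 := (Metric.tendsto_nhds.1 h4) (1 / 2) (by norm_num)
        filter_upwards [h5] with G hG
        rw [dist_eq_norm] at hG
        have h6 : RCLike.re (1 - ∑ d ∈ G, u j d * (sgr d j : 𝕜)) ≤
            ‖1 - ∑ d ∈ G, u j d * (sgr d j : 𝕜)‖ := RCLike.re_le_norm _
        rw [norm_sub_rev] at hG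
        rw [map_sub, RCLike.one_re, map_sum] at h6
        have h7 : ∑ d ∈ G, RCLike.re (u j d * (sgr d j : 𝕜)) ≤ ∑ d ∈ G, |RCLike.re (u j d)| := by
          refine Finset.sum_le_sum fun d _ => ?_
          rw [RCLike.re_mul_ofReal]
          refine (le_abs_self _).trans ?_
          rw [abs_mul]
          exact mul_le_of_le_one_right (abs_nonneg _) (abs_sgr_le d j)
        linarith
      have h8 : ∀ᶠ G : Finset D in atTop, ∀ j ∈ Finset.range n,
          1 / 2 ≤ ∑ d ∈ G, |RCLike.re (u j d)| :=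
        (Filter.eventually_all_finset _).2 fun j _ => h3 j
      exact h8.exists
    have hK : ∀ d : D, 2 ^ n * ∑ j ∈ Finset.range n, |RCLike.re (u j d)| ≤
        5 / 2 * √n * ∑ s ∈ (Finset.range n).powerset, |sg n (fun j => RCLike.re (u j d)) s| :=
      fun d => khintchine n fun j => RCLike.re (u j d)
    have hL : ∀ s ∈ (Finset.range n).powerset,
        ∑ d ∈ G, |sg n (fun j => RCLike.re (u j d)) s| ≤ ‖S‖ := by
      intro s hs
      have h9 : ∀ d ∈ G, |sg n (fun j => RCLike.re (u j d)) s| ≤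
          ‖(S (dl (s, Finset.range n \ s))) d‖ := by
        intro d _
        have h10 : sg n (fun j => RCLike.re (u j d)) s =
            RCLike.re ((S (dl (s, Finset.range n \ s))) d) := by
          rw [hsum n s (Finset.mem_powerset.1 hs), lp.coeFn_sum, Finset.sum_apply, map_sum, sg]
          refine Finset.sum_congr rfl fun j _ => ?_
          rw [lp.coeFn_smul, Pi.smul_apply, smul_eq_mul]
          split_ifs <;> simp
        rw [h10]
        exact RCLike.abs_re_le_norm _
      refine (Finset.sum_le_sum h9).trans ((sum_le _ G).trans ?_)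
      refine (S.le_opNorm _).trans ?_
      rw [norm_dl, mul_one]
    have hfin : 2 ^ n * ((n : ℝ) * (1 / 2)) ≤ 5 / 2 * √n * (2 ^ n * ‖S‖) := by
      have e1 : (n : ℝ) * (1 / 2) ≤ ∑ j ∈ Finset.range n, ∑ d ∈ G, |RCLike.re (u j d)| := by
        have := Finset.sum_le_sum hG
        simpa using this
      rw [Finset.sum_comm] at e1
      calc 2 ^ n * ((n : ℝ) * (1 / 2)) ≤
            2 ^ n * ∑ d ∈ G, ∑ j ∈ Finset.range n, |RCLike.re (u j d)| := by gcongr
        _ = ∑ d ∈ G, 2 ^ n * ∑ j ∈ Finset.range n, |RCLike.re (u j d)| := Finset.mul_sum _ _ _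
        _ ≤ ∑ d ∈ G, 5 / 2 * √n * ∑ s ∈ (Finset.range n).powerset,
              |sg n (fun j => RCLike.re (u j d)) s| := Finset.sum_le_sum fun d _ => hK d
        _ = 5 / 2 * √n * ∑ s ∈ (Finset.range n).powerset, ∑ d ∈ G,
              |sg n (fun j => RCLike.re (u j d)) s| := by
            rw [← Finset.mul_sum, Finset.sum_comm]
        _ ≤ 5 / 2 * √n * ∑ s ∈ (Finset.range n).powerset, ‖S‖ := by
            gcongr with s hs
            exact hL s hs
        _ = 5 / 2 * √n * (2 ^ n * ‖S‖) := by simp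
    have h11 : (0 : ℝ) < 2 ^ n := by positivity
    have h12 : (n : ℝ) = √n * √n := (Real.mul_self_sqrt (by positivity)).symm
    rcases Nat.eq_zero_or_pos n with h | h
    · subst h; simp
    · have h13 : 0 < √(n : ℝ) := Real.sqrt_pos.2 (by exact_mod_cast h)
      have h14 : (n : ℝ) * (1 / 2) ≤ 5 / 2 * √n * ‖S‖ := by
        have h15 : 2 ^ n * ((n : ℝ) * (1 / 2)) ≤ 2 ^ n * (5 / 2 * √n * ‖S‖) := by
          calc _ ≤ _ := hfin
            _ = _ := by ring
        exact le_of_mul_le_mul_left h15 h11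
      have h16 : √(n : ℝ) * √n ≤ √n * (5 * ‖S‖) := by
        rw [← h12]
        linarith
      exact le_of_mul_le_mul_left h16 h13
  obtain ⟨N, hN⟩ := exists_nat_gt ((5 * ‖S‖) ^ 2)
  have h17 := main N
  have h18 : (5 * ‖S‖) < √(N : ℝ) := Real.lt_sqrt_of_sq_lt hN
  linarith

theorem separable_L1 : TopologicalSpace.SeparableSpace (L1 𝕜) := by
  set s : Set (L1 𝕜) := range (fun d : D => (dl d : L1 𝕜)) with hs
  have hsep : TopologicalSpace.IsSeparable s := (countable_range _).isSeparable
  have hsp : TopologicalSpace.IsSeparable (closure (Submodule.span 𝕜 s : Set (L1 𝕜))) :=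
    (hsep.span (R := 𝕜)).closure
  have huniv : closure (Submodule.span 𝕜 s : Set (L1 𝕜)) = univ := by
    rw [eq_univ_iff_forall]
    intro y
    have h1 := lp.hasSum_single (p := 1) (by simp) y
    refine mem_closure_of_tendsto h1 (Eventually.of_forall fun G => ?_)
    refine Submodule.sum_mem _ fun d _ => ?_
    have h2 : lp.single 1 d (y d) = y d • (dl d : L1 𝕜) := by
      apply lp.ext
      funext d'
      rw [lp.coeFn_smul, Pi.smul_apply]
      by_cases h : d' = d
      · subst h
        rw [dl, lp.single_apply_self, lp.single_apply_self, smul_eq_mul, mul_one]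
      · rw [dl, lp.single_apply_ne _ _ _ h, lp.single_apply_ne _ _ _ h, smul_zero]
    rw [h2]
    exact Submodule.smul_mem _ _ (Submodule.subset_span ⟨d, rfl⟩)
  rw [huniv] at hsp
  exact TopologicalSpace.isSeparable_univ_iff.1 hsp

end Pool.Agent.H299.GenHyp6
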